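import Pool.Agent.N463.MI.Stm

/-!
# MI/B03: the Fourier series of the second Bernoulli polynomial

Author: helper697 (project MI of helper463).
-/

set_option autoImplicit false

open Finset Polynomial

noncomputable section

namespace Pool.Agent.N697.MI

theorem ber2 (x : ℝ) :
    ((Polynomial.bernoulli 2).map (algebraMap ℚ ℝ)).eval x = x ^ 2 - x + 1 / 6 := by
  simp_rw [Polynomial.bernoulli, Finset.sum_range_succ, Polynomial.map_add, Polynomial.eval_add]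
  simp [Polynomial.map_monomial, Polynomial.eval_monomial, _root_.bernoulli_one, bernoulli_two,
    Nat.choose]
  ring

theorem key (x : ℝ) (hx : x ∈ Set.Icc (0 : ℝ) 1) :
    HasSum (fun l : ℕ => Real.cos ((l + 1 : ℕ) * (2 * Real.pi * x)) / ((l : ℝ) + 1) ^ 2)
      (Real.pi ^ 2 * (x ^ 2 - x + 1 / 6)) := by
  have h := hasSum_one_div_nat_pow_mul_cos (k := 1) one_ne_zero hx
  rw [mul_one, ber2] at h
  have h1 := (hasSum_nat_add_iff'
    (f := fun n : ℕ => 1 / (n : ℝ) ^ 2 * Real.cos (2 * Real.pi * n * x)) 1).2 h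
  have e1 : (-1 : ℝ) ^ (1 + 1) * (2 * Real.pi) ^ 2 / 2 / (Nat.factorial 2 : ℝ) *
      (x ^ 2 - x + 1 / 6) -
      ∑ i ∈ Finset.range 1, (fun n : ℕ => 1 / (n : ℝ) ^ 2 * Real.cos (2 * Real.pi * n * x)) i =
      Real.pi ^ 2 * (x ^ 2 - x + 1 / 6) := by
    rw [Finset.sum_range_one]
    have e2 : (Nat.factorial 2 : ℝ) = 2 := by norm_num [Nat.factorial]
    rw [e2]
    simp only [Nat.cast_zero]
    rw [zero_pow two_ne_zero, div_zero, zero_mul, sub_zero]
    ring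
  rw [e1] at h1
  have e3 : (fun l : ℕ => Real.cos ((l + 1 : ℕ) * (2 * Real.pi * x)) / ((l : ℝ) + 1) ^ 2) =
      fun n : ℕ => 1 / ((n + 1 : ℕ) : ℝ) ^ 2 * Real.cos (2 * Real.pi * ((n + 1 : ℕ) : ℝ) * x) := by
    funext l
    have e4 : 2 * Real.pi * ((l + 1 : ℕ) : ℝ) * x = ((l + 1 : ℕ) : ℝ) * (2 * Real.pi * x) := by
      ring
    rw [e4]
    push_cast
    ring
  rw [e3]
  exact h1

theorem t_B03 : Pool.Agent.N463.MI.B03 := by
  have hpi := Real.pi_pos
  refine ⟨?_, ?_⟩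
  · intro y hy0 hy1
    have h := key (y / Real.pi) ⟨by positivity, by rw [div_le_one hpi]; exact hy1⟩
    have e1 : 2 * Real.pi * (y / Real.pi) = 2 * y := by field_simp
    have e2 : Real.pi ^ 2 * ((y / Real.pi) ^ 2 - y / Real.pi + 1 / 6) =
        Real.pi ^ 2 / 6 - Real.pi * y + y ^ 2 := by
      field_simp
      ring
    rw [e1, e2] at h
    have e3 : (fun l : ℕ => Real.cos (2 * (l + 1 : ℕ) * y) / ((l : ℝ) + 1) ^ 2) =
        fun l : ℕ => Real.cos ((l + 1 : ℕ) * (2 * y)) / ((l : ℝ) + 1) ^ 2 := by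
      funext l
      rw [show (2 : ℝ) * ((l + 1 : ℕ) : ℝ) * y = ((l + 1 : ℕ) : ℝ) * (2 * y) by ring]
    rw [e3]
    exact h
  · intro ψ
    set x : ℝ := Int.fract (ψ / (2 * Real.pi)) with hx
    have hx0 : 0 ≤ x := Int.fract_nonneg _
    have hx1 : x < 1 := Int.fract_lt_one _
    have h := key x ⟨hx0, hx1.le⟩
    have e1 : (fun l : ℕ => Real.cos ((l + 1 : ℕ) * ψ) / ((l : ℝ) + 1) ^ 2) =
        fun l : ℕ => Real.cos ((l + 1 : ℕ) * (2 * Real.pi * x)) / ((l : ℝ) + 1) ^ 2 := by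
      funext l
      congr 1
      have e2 : ψ = 2 * Real.pi * x + ((⌊ψ / (2 * Real.pi)⌋ : ℤ) : ℝ) * (2 * Real.pi) := by
        have e3 : ψ / (2 * Real.pi) = ((⌊ψ / (2 * Real.pi)⌋ : ℤ) : ℝ) + x := by
          rw [hx]
          exact (Int.floor_add_fract _).symm
        have e4 : ψ = (ψ / (2 * Real.pi)) * (2 * Real.pi) := by field_simp
        calc ψ = (ψ / (2 * Real.pi)) * (2 * Real.pi) := e4
          _ = (((⌊ψ / (2 * Real.pi)⌋ : ℤ) : ℝ) + x) * (2 * Real.pi) := by rw [← e3]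
          _ = _ := by ring
      have e5 : ((l + 1 : ℕ) : ℝ) * ψ = ((l + 1 : ℕ) : ℝ) * (2 * Real.pi * x) +
          (((l + 1 : ℕ) * ⌊ψ / (2 * Real.pi)⌋ : ℤ) : ℝ) * (2 * Real.pi) := by
        conv_lhs => rw [e2]
        push_cast
        ring
      rw [e5, Real.cos_add_int_mul_two_pi]
    rw [e1]
    refine ⟨h.summable, ?_⟩
    rw [h.tsum_eq]
    nlinarith [mul_nonneg (sq_nonneg Real.pi) (sq_nonneg (x - 1 / 2))]

end Pool.Agent.N697.MI
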